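import Pool.Agent.W292.NR.Stm

set_option autoImplicit false
set_option linter.all false

namespace Pool.Agent.W918.NR

open Finset Pool.Agent.W292.NR

theorem start_eq {k : ℕ} {st ln : ℕ → ℕ} (h : Chains k st ln) {t u : ℕ} (ht : t < k) (hu : u < k)
    (hs : st u = st t) : ln u = ln t := by
  have h1 := h.le t ht
  have h2 := h.lt t ht
  have h3 := h.le u hu
  have h4 := h.lt u hu
  have h5 := (h.same t ht (st t) le_rfl (by omega)).2
  have h6 := (h.same u hu (st t) (by omega) (by omega)).2
  omega

theorem two {k : ℕ} {st ln : ℕ → ℕ} {o : ℕ → Bool} (h : Chains k st ln) (ho : OrientOK k st ln o)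
    {t u : ℕ} (ht : t < k) (hu : u < k) :
    (st t = st u ∧ ln t = ln u ∧ o t = o u) ∨ st t + ln t ≤ st u ∨ st u + ln u ≤ st t := by
  by_cases h1 : st t + ln t ≤ st u
  · exact Or.inr (Or.inl h1)
  by_cases h2 : st u + ln u ≤ st t
  · exact Or.inr (Or.inr h2)
  left
  have e1 := h.le t ht
  have e2 := h.lt t ht
  have e3 := h.le u hu
  have e4 := h.lt u hu
  have h3 := h.same t ht (max (st t) (st u)) (by omega) (by omega)
  have h4 := h.same u hu (max (st t) (st u)) (by omega) (by omega)
  have h5 := ho t ht (max (st t) (st u)) (by omega) (by omega)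
  have h6 := ho u hu (max (st t) (st u)) (by omega) (by omega)
  exact ⟨by omega, by omega, by rw [← h5, ← h6]⟩

theorem sgn_one (b : Bool) : sgn b = 1 ∨ sgn b = -1 := by
  cases b <;> simp [sgn]

theorem sgn_not (b : Bool) : sgn (!b) = - sgn b := by
  cases b <;> simp [sgn]

theorem prod_flip (v : ℕ → Bool) (t : ℕ) (s : Finset ℕ) :
    ∏ w ∈ s, sgn (flipBit v t w) = if t ∈ s then - ∏ w ∈ s, sgn (v w) else ∏ w ∈ s, sgn (v w) := by
  split_ifs with h
  · rw [← Finset.mul_prod_erase s _ h, ← Finset.mul_prod_erase s (fun w => sgn (v w)) h, ← neg_mul]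
    congr 1
    · rw [flipBit, Function.update_self, sgn_not]
    · apply Finset.prod_congr rfl
      intro w hw
      rw [flipBit, Function.update_of_ne (Finset.ne_of_mem_erase hw)]
  · apply Finset.prod_congr rfl
    intro w hw
    rw [flipBit, Function.update_of_ne]
    rintro rfl
    exact h hw

theorem epsT : S_EPS := by
  intro k st ln hC v
  constructor
  · intro t
    unfold eps
    apply Finset.prod_induction _ (fun x : ℤ => x = 1 ∨ x = -1)
    · rintro a b (rfl | rfl) (rfl | rfl) <;> simp
    · exact Or.inl rfl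
    · intro w _
      exact sgn_one _
  · intro t ht u hu
    unfold eps
    rw [prod_flip]
    have h : t ∈ Ico u (st u + ln u) ↔ st u = st t ∧ u ≤ t := by
      rw [Finset.mem_Ico]
      have h1 := hC.le u hu
      have h2 := hC.lt t ht
      constructor
      · rintro ⟨a, b⟩
        exact ⟨((hC.same u hu t (by omega) b).1).symm, a⟩
      · rintro ⟨a, b⟩
        have := start_eq hC ht hu a
        exact ⟨b, by omega⟩
    simp only [h]

theorem posT : S_POS := by
  intro k st ln o hC ho
  intro x y h
  have bd : ∀ t : Fin k, st t ≤ (t : ℕ) ∧ (t : ℕ) < st t + ln t ∧ st t + ln t ≤ k := fun t =>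
    ⟨hC.le t t.2, hC.lt t t.2, hC.top t t.2⟩
  rcases x with ⟨t, bt⟩ | ⟨t, bt⟩ <;> rcases y with ⟨u, bu⟩ | ⟨u, bu⟩ <;>
    (have h2 := two hC ho t.2 u.2
     have h3 := bd t
     have h4 := bd u
     have h5 : (t : ℕ) = u → t = u := Fin.ext
     cases bt <;> cases bu <;> simp only [pos] at h <;>
     rcases h2 with ⟨a1, a2, a3⟩ | h2 | h2 <;>
     first
      | (rw [h5 (by omega)]; done)
      | (rw [h5 (by (try rw [a3] at h); split_ifs at h <;> omega)]; done)
      | (exfalso; (try rw [a3] at h); split_ifs at h <;> omega))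

end Pool.Agent.W918.NR
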